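import Pool.Agent.W363.JQ.Stm

set_option autoImplicit false
open Filter Topology Set Metric

namespace Pool.Agent.W191.JQ
open Pool.Agent.W363.JQ

theorem LT_symm {A B : Set ℂ} {q : ℂ} (h : LT A B q) : LT B A q := by
  obtain ⟨C, hC, ρ, hρ, h⟩ := h
  refine ⟨1 + C, by linarith, ρ, hρ, fun y hy hyq x hx hxq => ?_⟩
  have h1 := h x hx hxq y hy hyq
  have h2 := dist_triangle y x q
  have h3 : dist x y = dist y x := dist_comm x y
  rw [h3] at h1
  linarith

theorem LT_mono {A B A' B' : Set ℂ} {q : ℂ} (h : LT A B q) (hA : A' ⊆ A) (hB : B' ⊆ B) :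
    LT A' B' q := by
  obtain ⟨C, hC, ρ, hρ, h⟩ := h
  exact ⟨C, hC, ρ, hρ, fun x hx hxq y hy hyq => h x (hA hx) hxq y (hB hy) hyq⟩

theorem arc_cpt {φ : ℝ → ℂ} (h : Continuous φ) (s t : ℝ) : IsCompact (arc φ s t) :=
  isCompact_Icc.image h

theorem arc_mono {φ : ℝ → ℂ} {s t s' t' : ℝ} (hs : s ≤ s') (ht : t' ≤ t) :
    arc φ s' t' ⊆ arc φ s t := image_mono (Icc_subset_Icc hs ht)

/-- saturated intervals -/
theorem K {φ : ℝ → ℂ} {α β s t v u : ℝ} (hba : β < α + 1) (hs : α ≤ s) (ht : t ≤ β)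
    (hsat : Sat φ s t) (hv : v ∈ Ioo s t) (hu : u ∈ Icc α (α + 1)) (hu' : u ∉ Ioo s t)
    (h : φ v = φ u) : False := by
  obtain ⟨k, hk⟩ := hsat v hv u h
  rcases lt_trichotomy k 0 with h0 | h0 | h0
  · have h1 : (k : ℝ) ≤ -1 := by exact_mod_cast (by omega : k ≤ -1)
    have := hk.1
    have := hu.2
    linarith
  · rw [h0, Int.cast_zero, add_zero] at hk
    exact hu' hk
  · have h1 : (1 : ℝ) ≤ k := by exact_mod_cast (by omega : 1 ≤ k)
    have := hk.2
    have := hu.1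
    linarith

theorem chain (h1 : S_LTt) (h2 : S_tr) : S_chain := by
  intro F r φ α β hF hLα hLβ n σ τ hασ hστ hτβ hτ hk hsat hor
  have hba := hF.ba
  have hS := hF.sat
  have i01 : ∀ x ∈ arc φ β (α + 1) ∩ arc φ α σ, x = φ α := by
    rintro x ⟨⟨u, hu, rfl⟩, ⟨t, ht, htu⟩⟩
    rcases ht.1.eq_or_lt with h | h
    · rw [← htu, ← h]
    · exact (K hba le_rfl le_rfl hS ⟨h, by linarith [ht.2]⟩ ⟨by linarith [hu.1], hu.2⟩
        (fun h' => absurd h'.2 (not_lt.2 hu.1)) htu).elim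
  have i03 : ∀ x ∈ arc φ β (α + 1) ∩ arc φ τ β, x = φ β := by
    rintro x ⟨⟨u, hu, rfl⟩, ⟨t, ht, htu⟩⟩
    rcases ht.2.eq_or_lt with h | h
    · rw [← htu, h]
    · exact (K hba le_rfl le_rfl hS ⟨by linarith [ht.1], h⟩ ⟨by linarith [hu.1], hu.2⟩
        (fun h' => absurd h'.2 (not_lt.2 hu.1)) htu).elim
  have i12 : ∀ x ∈ arc φ α σ ∩ arc φ σ τ, x = φ σ := by
    rintro x ⟨⟨t, ht, rfl⟩, ⟨u, hu, hut⟩⟩
    rcases hu.1.eq_or_lt with h | h
    · rw [← hut, ← h]
    · exfalso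
      rcases hu.2.eq_or_lt with h' | h'
      · rw [h'] at hut
        rcases hor with ho | ho
        · rcases ht.1.eq_or_lt with h3 | h3
          · rw [← h3] at hut
            exact hF.lastα τ ⟨by linarith, hτβ⟩ hut
          · exact K hba le_rfl hτβ.le ho ⟨h3, by linarith [ht.2]⟩
              ⟨by linarith, by linarith⟩ (fun h4 => lt_irrefl _ h4.2) hut.symm
        · exact K hba hασ.le le_rfl ho ⟨hστ, hτβ⟩ ⟨ht.1, by linarith [ht.2]⟩
            (fun h4 => absurd h4.1 (not_lt.2 ht.2)) hut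
      · exact K hba hασ.le hτβ.le hsat ⟨h, h'⟩ ⟨ht.1, by linarith [ht.2]⟩
          (fun h4 => absurd h4.1 (not_lt.2 ht.2)) hut
  have i23 : ∀ x ∈ arc φ σ τ ∩ arc φ τ β, x = φ τ := by
    rintro x ⟨⟨t, ht, rfl⟩, ⟨u, hu, hut⟩⟩
    rcases ht.2.eq_or_lt with h | h
    · rw [h]
    · exfalso
      rcases ht.1.eq_or_lt with h' | h'
      · rw [← h'] at hut
        rcases hor with ho | ho
        · exact K hba le_rfl hτβ.le ho ⟨hασ, hστ⟩ ⟨by linarith [hu.1], by linarith [hu.2]⟩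
            (fun h4 => absurd h4.2 (not_lt.2 hu.1)) hut.symm
        · rcases hu.2.eq_or_lt with h3 | h3
          · rw [h3] at hut
            exact hF.firstβ σ ⟨hασ, by linarith⟩ hut.symm
          · exact K hba hασ.le le_rfl ho ⟨by linarith [hu.1], h3⟩ ⟨hασ.le, by linarith⟩
              (fun h4 => lt_irrefl _ h4.1) hut
      · exact K hba hασ.le hτβ.le hsat ⟨h', h⟩ ⟨by linarith [hu.1], by linarith [hu.2]⟩
          (fun h4 => absurd h4.2 (not_lt.2 hu.1)) hut.symm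
  have i02 : arc φ β (α + 1) ∩ arc φ σ τ = ∅ := by
    rw [eq_empty_iff_forall_notMem]
    rintro x ⟨⟨u, hu, rfl⟩, ⟨t, ht, htu⟩⟩
    exact K hba le_rfl le_rfl hS ⟨by linarith [ht.1], by linarith [ht.2]⟩
      ⟨by linarith [hu.1], hu.2⟩ (fun h' => absurd h'.2 (not_lt.2 hu.1)) htu
  have i13 : arc φ α σ ∩ arc φ τ β = ∅ := by
    rw [eq_empty_iff_forall_notMem]
    rintro x ⟨⟨t, ht, rfl⟩, ⟨u, hu, hut⟩⟩
    rcases hor with ho | ho
    · rcases ht.1.eq_or_lt with h3 | h3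
      · rw [← h3] at hut
        rcases hu.2.eq_or_lt with h4 | h4
        · rw [h4] at hut
          exact hF.ne hut.symm
        · exact hF.lastα u ⟨by linarith [hu.1], h4⟩ hut
      · exact K hba le_rfl hτβ.le ho ⟨h3, by linarith [ht.2]⟩
          ⟨by linarith [hu.1], by linarith [hu.2]⟩
          (fun h4 => absurd h4.2 (not_lt.2 hu.1)) hut.symm
    · rcases hu.2.eq_or_lt with h4 | h4
      · rw [h4] at hut
        rcases ht.1.eq_or_lt with h3 | h3
        · rw [← h3] at hut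
          exact hF.ne hut.symm
        · exact hF.firstβ t ⟨h3, by linarith [ht.2]⟩ hut.symm
      · exact K hba hασ.le le_rfl ho ⟨by linarith [hu.1], h4⟩ ⟨ht.1, by linarith [ht.2]⟩
          (fun h5 => absurd h5.1 (not_lt.2 ht.2)) hut
  have hc := fun s t => arc_cpt hF.cont s t
  have hLT1 := h1 F r φ α β hF hLα hLβ n σ τ α σ hτ hk hsat (by
    intro u hu k hk'
    rcases lt_trichotomy k 0 with h0 | h0 | h0
    · have h1 : (k : ℝ) ≤ -1 := by exact_mod_cast (by omega : k ≤ -1)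
      have := hk'.1
      have := hu.2
      linarith
    · rw [h0, Int.cast_zero, add_zero] at hk'
      exact absurd hk'.1 (not_lt.2 hu.2)
    · have h1 : (1 : ℝ) ≤ k := by exact_mod_cast (by omega : 1 ≤ k)
      have := hk'.2
      have := hu.1
      linarith)
  have hLT2 := h1 F r φ α β hF hLα hLβ n σ τ τ β hτ hk hsat (by
    intro u hu k hk'
    rcases lt_trichotomy k 0 with h0 | h0 | h0
    · have h1 : (k : ℝ) ≤ -1 := by exact_mod_cast (by omega : k ≤ -1)
      have := hk'.1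
      have := hu.2
      linarith
    · rw [h0, Int.cast_zero, add_zero] at hk'
      exact absurd hk'.2 (not_lt.2 hu.1)
    · have h1 : (1 : ℝ) ≤ k := by exact_mod_cast (by omega : 1 ≤ k)
      have := hk'.2
      have := hu.1
      linarith)
  refine ⟨i01, i12, i23, i03, i02, i13, ?_, ?_, ?_, ?_, ?_, ?_⟩
  · refine h2 _ _ (hc _ _) (hc _ _) fun q hq => ?_
    rw [i01 q hq]
    exact LT_mono (LT_symm hLα) le_rfl (arc_mono le_rfl (by linarith))
  · refine h2 _ _ (hc _ _) (hc _ _) fun q hq => ?_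
    rw [i02] at hq
    exact hq.elim
  · refine h2 _ _ (hc _ _) (hc _ _) fun q hq => ?_
    rw [i03 q hq]
    exact LT_mono (LT_symm hLβ) le_rfl (arc_mono (by linarith) le_rfl)
  · refine h2 _ _ (hc _ _) (hc _ _) fun q hq => ?_
    rw [i12 q hq]
    exact LT_symm hLT1.1
  · refine h2 _ _ (hc _ _) (hc _ _) fun q hq => ?_
    rw [i13] at hq
    exact hq.elim
  · refine h2 _ _ (hc _ _) (hc _ _) fun q hq => ?_
    rw [i23 q hq]
    exact hLT2.2

end Pool.Agent.W191.JQ
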